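import Pool.Agent.Q190.ZC.Rel
import Pool.Agent.Q198.SE.Cnt

/-!
# Project ZC (helper51), job CLS: the number of the residue classes allowed by `Rel`
-/

set_option autoImplicit false
set_option linter.all false

namespace Pool.Agent.Q190.ZC

open Polynomial NumberField IsDedekindDomain Finset
open Pool.Agent.Q51.EL (Abv N1)
open Pool.Agent.Q51.SE (Parq Zc)
open Pool.Agent.Q51.ZC
open Pool.Agent.Q247.EL (VV Th finite_k card_eq_norm finite_VV iInf_VV prod_card)
open Pool.Agent.Q198.SE (reps card_pw)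

section

variable (L : Type) [Field L] [NumberField L]

/-- the number of the primes above `l` -/
theorem card_ab {l : ℕ} (hl : l.Prime) [Fintype (VV L l)] : (ab L l).card = Fintype.card (VV L l) := by
  classical
  have hfin : {v : HeightOneSpectrum (𝓞 L) | Abv v l}.Finite := Pool.Agent.Q239.EL.ab_finite hl.ne_zero
  unfold ab
  rw [dif_pos hfin, ← Nat.card_eq_fintype_card, ← Set.ncard_eq_toFinset_card _ hfin, ← Nat.card_coe_set_eq]
  rfl

theorem ind_pos {q : ℕ} (hq : q.Prime) (l : ℕ) : 0 < ind L q l := by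
  have hq0 : (0 : ℝ) < q := by exact_mod_cast hq.pos
  unfold ind
  split_ifs <;> positivity

open Classical in
/-- the classes in the product of the residue fields -/
theorem th_card {q l : ℕ} (hq : q.Prime) (hl : l.Prime) (hsq : Squarefree (Ideal.span {(l : 𝓞 L)}))
    [Fintype (VV L l)] (M : HeightOneSpectrum (𝓞 L) → ℤ) (T : Set (𝓞 L))
    (hT1 : ∀ γ ∈ T, ∀ v : HeightOneSpectrum (𝓞 L), Abv v l → γ ∉ v.asIdeal)
    (hT2 : ∀ γ ∈ T, ∀ γ' ∈ T, Rel q l M (γ : L) (γ' : L)) :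
    ((Th L (l := l) '' T).ncard : ℝ) ≤ (if l % q = 1 then (q : ℝ) ^ 2 else 1) *
      ∏ v : VV L l, (if Ideal.absNorm v.1.asIdeal % q = 1 then (Nat.card (𝓞 L ⧸ v.1.asIdeal) : ℝ) / q
        else (Nat.card (𝓞 L ⧸ v.1.asIdeal) : ℝ)) := by
  haveI : ∀ v : VV L l, Finite (𝓞 L ⧸ v.1.asIdeal) := finite_k L
  haveI : ∀ v : VV L l, Fintype (𝓞 L ⧸ v.1.asIdeal) := fun v => Fintype.ofFinite _
  haveI : ∀ v : VV L l, IsDomain (𝓞 L ⧸ v.1.asIdeal) := fun v => by
    haveI := v.1.isPrime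
    infer_instance
  have hq0 : (0 : ℝ) < q := by exact_mod_cast hq.pos
  have hprod0 : 0 ≤ ∏ v : VV L l, (if Ideal.absNorm v.1.asIdeal % q = 1 then (Nat.card (𝓞 L ⧸ v.1.asIdeal) : ℝ) / q
        else (Nat.card (𝓞 L ⧸ v.1.asIdeal) : ℝ)) := by
    refine prod_nonneg fun v _ => ?_
    split_ifs <;> positivity
  have hgc0 : (0 : ℝ) ≤ (if l % q = 1 then (q : ℝ) ^ 2 else 1) := by split_ifs <;> positivity
  rcases T.eq_empty_or_nonempty with rfl | ⟨γ0, hγ0⟩
  · rw [Set.image_empty, Set.ncard_empty, Nat.cast_zero]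
    exact mul_nonneg hgc0 hprod0
  obtain ⟨E, hE, heps⟩ := reps l q hl hq
  let Q : ∀ v : VV L l, Finset (𝓞 L ⧸ v.1.asIdeal) := fun v =>
    (Set.toFinite ({x : 𝓞 L ⧸ v.1.asIdeal | x ≠ 0 ∧ ∃ s, x = s ^ q})).toFinset
  let P : ℤ × ℤ → (∀ v : VV L l, 𝓞 L ⧸ v.1.asIdeal) → (∀ v : VV L l, 𝓞 L ⧸ v.1.asIdeal) := fun e p v =>
    Ideal.Quotient.mk v.1.asIdeal ((e.1 : 𝓞 L) * (e.2 : 𝓞 L) ^ (M v.1 % q).toNat * γ0) * p v
  have hsub : Th L (l := l) '' T ⊆ ((E ×ˢ E).biUnion fun e => (Fintype.piFinset Q).image (P e) :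
      Finset (∀ v : VV L l, 𝓞 L ⧸ v.1.asIdeal)) := by
    rintro x ⟨γ, hγ, rfl⟩
    obtain ⟨e1, e2, he1, he2, hh⟩ := rel_res hq hl hsq (hT1 γ0 hγ0) (hT1 γ hγ) (hT2 γ0 hγ0 γ hγ)
    obtain ⟨ε1, hε1, d1, _, _, hc1⟩ := heps e1 he1
    obtain ⟨ε2, hε2, d2, _, _, hc2⟩ := heps e2 he2
    have key : ∀ v : VV L l, ∃ p : 𝓞 L ⧸ v.1.asIdeal, p ∈ Q v ∧
        Ideal.Quotient.mk v.1.asIdeal ((ε1 : 𝓞 L) * (ε2 : 𝓞 L) ^ (M v.1 % q).toNat * γ0) * p =
          Ideal.Quotient.mk v.1.asIdeal γ := by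
      intro v
      obtain ⟨h, hv⟩ := hh v.1 v.2
      set r : ℕ := (M v.1 % q).toNat with hr
      have hred : ∀ {e ε d : ℤ}, (l : ℤ) ∣ e - ε * d ^ q → Ideal.Quotient.mk v.1.asIdeal (e : 𝓞 L) =
          Ideal.Quotient.mk v.1.asIdeal (ε : 𝓞 L) * Ideal.Quotient.mk v.1.asIdeal (d : 𝓞 L) ^ q := by
        intro e ε d hd
        rw [← map_pow, ← map_mul, Ideal.Quotient.eq]
        obtain ⟨m, hm⟩ := hd
        have h3 : (e : 𝓞 L) - (ε : 𝓞 L) * (d : 𝓞 L) ^ q = (m : 𝓞 L) * (l : 𝓞 L) := by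
          have : ((e - ε * d ^ q : ℤ) : 𝓞 L) = ((l * m : ℤ) : 𝓞 L) := by rw [hm]
          push_cast at this
          rw [this, mul_comm]
        rw [h3]
        exact v.1.asIdeal.mul_mem_left _ v.2
      have h4 : Ideal.Quotient.mk v.1.asIdeal γ =
          Ideal.Quotient.mk v.1.asIdeal (e1 : 𝓞 L) * Ideal.Quotient.mk v.1.asIdeal (e2 : 𝓞 L) ^ r *
            Ideal.Quotient.mk v.1.asIdeal h ^ q * Ideal.Quotient.mk v.1.asIdeal γ0 := by
        rw [← map_pow, ← map_pow, ← map_mul, ← map_mul, ← map_mul]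
        exact (Ideal.Quotient.eq).2 hv
      have h5 : Ideal.Quotient.mk v.1.asIdeal ((ε1 : 𝓞 L) * (ε2 : 𝓞 L) ^ r * γ0) *
          (Ideal.Quotient.mk v.1.asIdeal (d1 : 𝓞 L) * Ideal.Quotient.mk v.1.asIdeal (d2 : 𝓞 L) ^ r *
            Ideal.Quotient.mk v.1.asIdeal h) ^ q = Ideal.Quotient.mk v.1.asIdeal γ := by
        rw [h4, hred hc1, hred hc2, map_mul, map_mul, map_pow]
        ring
      refine ⟨_, ?_, h5⟩
      rw [Set.Finite.mem_toFinset]
      refine ⟨fun h0 => ?_, _, rfl⟩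
      rw [h0, mul_zero] at h5
      exact hT1 γ hγ v.1 v.2 ((Ideal.Quotient.eq_zero_iff_mem).1 h5.symm)
    choose p hp1 hp2 using key
    have hpF : P (ε1, ε2) p = Th L γ := by
      funext v
      exact hp2 v
    have hpQ : p ∈ Fintype.piFinset Q := Fintype.mem_piFinset.2 hp1
    rw [Finset.coe_biUnion]
    simp only [Set.mem_iUnion]
    refine ⟨(ε1, ε2), mem_product.2 ⟨hε1, hε2⟩, ?_⟩
    rw [Finset.coe_image]
    exact ⟨p, hpQ, hpF⟩
  have h1 : (Th L (l := l) '' T).ncard ≤ (if l % q = 1 then q ^ 2 else 1) * (Fintype.piFinset Q).card := by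
    refine (Set.ncard_le_ncard hsub (Set.toFinite _)).trans ?_
    rw [Set.ncard_coe_finset]
    refine card_biUnion_le.trans ((sum_le_sum fun e _ => card_image_le).trans ?_)
    rw [sum_const, smul_eq_mul, card_product]
    refine Nat.mul_le_mul_right _ ((Nat.mul_le_mul hE hE).trans (le_of_eq ?_))
    split_ifs
    · ring
    · rfl
  have h2 : ((Fintype.piFinset Q).card : ℝ) ≤
      ∏ v : VV L l, (if Ideal.absNorm v.1.asIdeal % q = 1 then (Nat.card (𝓞 L ⧸ v.1.asIdeal) : ℝ) / q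
        else (Nat.card (𝓞 L ⧸ v.1.asIdeal) : ℝ)) := by
    rw [Fintype.card_piFinset]
    push_cast
    refine prod_le_prod (fun v _ => Nat.cast_nonneg _) fun v _ => ?_
    by_cases hv : Ideal.absNorm v.1.asIdeal % q = 1
    · rw [if_pos hv]
      have h3 := card_pw (𝓞 L ⧸ v.1.asIdeal) q hq (by rw [card_eq_norm L v]; exact hv)
      rw [Set.ncard_eq_toFinset_card _ (Set.toFinite _)] at h3
      exact h3
    · rw [if_neg hv]
      have : (Q v).card ≤ Nat.card (𝓞 L ⧸ v.1.asIdeal) := by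
        rw [Nat.card_eq_fintype_card]
        exact card_le_univ _
      exact_mod_cast this
  have h3 : ((Th L (l := l) '' T).ncard : ℝ) ≤
      (((if l % q = 1 then q ^ 2 else 1) * (Fintype.piFinset Q).card : ℕ) : ℝ) := by
    exact_mod_cast h1
  refine h3.trans ?_
  push_cast
  exact mul_le_mul_of_nonneg_left h2 hgc0

end

open Classical in
/-- **ZC-CLS** -/
theorem cls : S_CLS := by
  intro L _ _ q l hq hl hsq hz M T hT1 hT2
  haveI := finite_VV L hl
  haveI : Fintype (VV L l) := Fintype.ofFinite _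
  haveI : ∀ v : VV L l, Finite (𝓞 L ⧸ v.1.asIdeal) := finite_k L
  have hq0 : (0 : ℝ) < q := by exact_mod_cast hq.pos
  have hq1 : (1 : ℝ) ≤ q := by exact_mod_cast hq.one_lt.le
  have hl0 : (0 : ℝ) < l := by exact_mod_cast hl.pos
  have hcardk' : ∏ v : VV L l, (Nat.card (𝓞 L ⧸ v.1.asIdeal) : ℝ) = (l : ℝ) ^ Module.finrank ℚ L := by
    exact_mod_cast prod_card L hl hsq
  -- pass to the product of the residue fields
  have hA : (Ideal.Quotient.mk (Ideal.span {(l : 𝓞 L)}) '' T).ncard ≤ (Th L (l := l) '' T).ncard := by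
    let h : (∀ v : VV L l, 𝓞 L ⧸ v.1.asIdeal) → 𝓞 L ⧸ Ideal.span {(l : 𝓞 L)} := fun y =>
      if hy : ∃ β, Th L β = y then Ideal.Quotient.mk _ hy.choose else 0
    have h1 : ∀ β, h (Th L β) = Ideal.Quotient.mk (Ideal.span {(l : 𝓞 L)}) β := by
      intro β
      have hy : ∃ β', Th L (l := l) β' = Th L β := ⟨β, rfl⟩
      simp only [h]
      rw [dif_pos hy]
      have h2 := hy.choose_spec
      rw [Ideal.Quotient.eq, ← iInf_VV L hl hsq, Ideal.mem_iInf]
      intro v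
      exact (Ideal.Quotient.eq).1 (congrFun h2 v)
    have h2 : Ideal.Quotient.mk (Ideal.span {(l : 𝓞 L)}) '' T = h '' (Th L (l := l) '' T) := by
      rw [Set.image_image]
      exact Set.image_congr fun β _ => (h1 β).symm
    rw [h2]
    exact Set.ncard_image_le (Set.toFinite _)
  have hB := th_card L hq hl hsq M T hT1 hT2
  have hA' : ((Ideal.Quotient.mk (Ideal.span {(l : 𝓞 L)}) '' T).ncard : ℝ) ≤ ((Th L (l := l) '' T).ncard : ℝ) := by
    exact_mod_cast hA
  refine (hA'.trans hB).trans ?_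
  set k : ℕ := Fintype.card (VV L l) with hk
  have hkab : (ab L l).card = k := card_ab L hl
  by_cases h1 : l % q = 1
  · have hall : ∀ v : VV L l, Ideal.absNorm v.1.asIdeal % q = 1 := by
      intro v
      by_cases h2 : Ideal.absNorm v.1.asIdeal = l
      · rw [h2]
        exact h1
      · exact hz.1 v.1 v.2 h2
    have h3 : ∏ v : VV L l, (if Ideal.absNorm v.1.asIdeal % q = 1 then (Nat.card (𝓞 L ⧸ v.1.asIdeal) : ℝ) / q
        else (Nat.card (𝓞 L ⧸ v.1.asIdeal) : ℝ)) = (l : ℝ) ^ Module.finrank ℚ L / (q : ℝ) ^ k := by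
      rw [← hcardk', hk, ← card_univ, ← prod_const, ← prod_div_distrib]
      exact prod_congr rfl fun v _ => if_pos (hall v)
    rw [if_pos h1, h3]
    unfold ind
    rw [if_pos h1, hkab, zpow_sub₀ hq0.ne', zpow_natCast]
    apply le_of_eq
    have : ((q : ℝ) ^ (2 : ℤ)) = (q : ℝ) ^ 2 := by norm_cast
    rw [this]
    field_simp
  · rw [if_neg h1, one_mul]
    unfold ind
    rw [if_neg h1, hkab, zpow_sub₀ hq0.ne', zpow_natCast, zpow_one, inv_div]
    -- at most one prime with norm not 1 mod q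
    set W : Finset (VV L l) := univ.filter (fun v => ¬ Ideal.absNorm v.1.asIdeal % q = 1) with hW
    have hW1 : W.card ≤ 1 := by
      rw [card_le_one]
      intro v hv w hw
      by_contra hvw
      have hv2 := (mem_filter.1 hv).2
      have hw2 := (mem_filter.1 hw).2
      have hv3 : Ideal.absNorm v.1.asIdeal = l := by
        by_contra h
        exact hv2 (hz.1 v.1 v.2 h)
      have hw3 : Ideal.absNorm w.1.asIdeal = l := by
        by_contra h
        exact hw2 (hz.1 w.1 w.2 h)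
      exact h1 (hz.2 v.1 w.1 v.2 w.2 (fun h => hvw (Subtype.ext h)) hv3 hw3)
    have h3 : ∏ v : VV L l, (if Ideal.absNorm v.1.asIdeal % q = 1 then (Nat.card (𝓞 L ⧸ v.1.asIdeal) : ℝ) / q
        else (Nat.card (𝓞 L ⧸ v.1.asIdeal) : ℝ)) =
        (l : ℝ) ^ Module.finrank ℚ L / (q : ℝ) ^ k * (q : ℝ) ^ W.card := by
      rw [← hcardk', hk, ← card_univ, ← prod_const, ← prod_div_distrib, hW, ← prod_const, prod_filter,
        ← prod_mul_distrib]
      refine prod_congr rfl fun v _ => ?_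
      by_cases h : Ideal.absNorm v.1.asIdeal % q = 1
      · rw [if_pos h, if_neg (not_not.2 h), mul_one]
      · rw [if_neg h, if_pos h]
        field_simp
    rw [h3]
    have h4 : (q : ℝ) ^ W.card ≤ q := by
      calc (q : ℝ) ^ W.card ≤ (q : ℝ) ^ 1 := pow_le_pow_right₀ hq1 hW1
        _ = q := pow_one _
    have h5 : (l : ℝ) ^ Module.finrank ℚ L * (q / (q : ℝ) ^ k) =
        (l : ℝ) ^ Module.finrank ℚ L / (q : ℝ) ^ k * q := by ring
    rw [h5]
    exact mul_le_mul_of_nonneg_left h4 (by positivity)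

end Pool.Agent.Q190.ZC
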