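import Pool.Agent.Q190.ZC.Lag

/-!
# Project ZC (helper51), job INTP: interpolation
-/

set_option autoImplicit false
set_option linter.all false

namespace Pool.Agent.Q190.ZC

open Polynomial Finset
open Pool.Agent.Q51.ZC
open Pool.Agent.Q51.SE (Alg cl IsUnitAt)

open scoped Classical

variable {l : ℕ} [Fact l.Prime]

theorem evl_cl {f : ℤ[X]} {ρ : Om l} (h : ρ ∈ Rt f l) (P : ℚ_[l][X]) :
    evl f l ρ (cl f ℚ_[l] P) = (P.map (algebraMap ℚ_[l] (Om l))).eval ρ := by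
  unfold evl
  rw [ev_cl _ (isZ_of_mem h), eval_map]

theorem good_ne {f : ℤ[X]} (hf : GoodAt f l) : f ≠ 0 := by
  rintro rfl
  exact hf.lead (by simp)

/-- a polynomial which vanishes at all zeros of `f` is divisible by `f` -/
theorem dvd_of_vanish {f : ℤ[X]} (hf : GoodAt f l) {P : ℚ_[l][X]}
    (h : ∀ ρ ∈ Rt f l, (P.map (algebraMap ℚ_[l] (Om l))).eval ρ = 0) : f.map (Int.castRingHom ℚ_[l]) ∣ P := by
  rw [← Polynomial.map_dvd_map' (algebraMap ℚ_[l] (Om l)), Polynomial.map_map]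
  have hc : (algebraMap ℚ_[l] (Om l)).comp (Int.castRingHom ℚ_[l]) = Int.castRingHom (Om l) := RingHom.ext_int _ _
  rw [hc]
  set F : (Om l)[X] := f.map (Int.castRingHom (Om l)) with hF
  set Q : (Om l)[X] := P.map (algebraMap ℚ_[l] (Om l)) with hQ
  by_cases hQ0 : Q = 0
  · rw [hQ0]
    exact dvd_zero _
  have hsplit : F.Splits := IsAlgClosed.splits F
  have hF0 : F ≠ 0 := by
    rw [hF]
    exact (Polynomial.map_ne_zero_iff (RingHom.injective_int (Int.castRingHom (Om l)))).2 (good_ne hf)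
  have hdeg : F.natDegree = f.natDegree :=
    natDegree_map_eq_of_injective (RingHom.injective_int (Int.castRingHom (Om l))) f
  have hcard : F.roots.toFinset.card = F.natDegree := by
    rw [hdeg]
    exact hf.card
  have hnodup : F.roots.Nodup := by
    rw [← Multiset.toFinset_card_eq_card_iff_nodup, hcard]
    exact hsplit.natDegree_eq_card_roots
  have hle : F.roots ≤ Q.roots := by
    rw [Multiset.le_iff_subset hnodup]
    intro ρ hρ
    rw [mem_roots hQ0]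
    apply h
    unfold Rt
    rw [Multiset.mem_toFinset]
    exact hρ
  rw [hsplit.eq_prod_roots]
  have h1 : (F.roots.map fun a => X - C a).prod ∣ Q := (Multiset.prod_X_sub_C_dvd_iff_le_roots hQ0 _).2 hle
  obtain ⟨R, hR⟩ := h1
  have hlc : F.leadingCoeff ≠ 0 := leadingCoeff_ne_zero.2 hF0
  refine ⟨C F.leadingCoeff⁻¹ * R, ?_⟩
  rw [hR]
  have : (C F.leadingCoeff : (Om l)[X]) * C F.leadingCoeff⁻¹ = 1 := by
    rw [← C_mul, mul_inv_cancel₀ hlc, C_1]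
  linear_combination (-(F.roots.map fun a => X - C a).prod * R) * this

theorem inj_at {f : ℤ[X]} (hf : GoodAt f l) (A A' : Alg f ℚ_[l])
    (h : ∀ ρ ∈ Rt f l, evl f l ρ A = evl f l ρ A') : A = A' := by
  obtain ⟨P, rfl⟩ := AdjoinRoot.mk_surjective A
  obtain ⟨P', rfl⟩ := AdjoinRoot.mk_surjective A'
  rw [AdjoinRoot.mk_eq_mk]
  refine dvd_of_vanish hf fun ρ hρ => ?_
  have h1 := h ρ hρ
  have h2 := evl_cl hρ P
  have h3 := evl_cl hρ P'
  unfold cl at h2 h3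
  rw [h2, h3] at h1
  rw [Polynomial.map_sub, eval_sub, h1, sub_self]

/-- the interpolating polynomial -/
theorem interp_at {f : ℤ[X]} (hf : GoodAt f l) (u : Om l → Om l)
    (hu : ∀ (g : Om l ≃ₐ[ℚ_[l]] Om l), ∀ ρ ∈ Rt f l, u (g ρ) = g (u ρ)) :
    ∃ P : ℚ_[l][X], (∀ ρ ∈ Rt f l, evl f l ρ (cl f ℚ_[l] P) = u ρ) ∧
      ((∀ ρ ∈ Rt f l, ‖u ρ‖ ≤ 1) → ∃ h : ℤ_[l][X], h.map (algebraMap ℤ_[l] ℚ_[l]) = P) := by
  obtain ⟨P, hP⟩ := descent (Rt f l) (fun g ρ hρ => aut_mem g hρ) u hu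
  refine ⟨P, fun ρ hρ => ?_, fun hn => ?_⟩
  · rw [evl_cl hρ, hP]
    have := Lagrange.eval_interpolate_at_node (s := Rt f l) (v := id) u Function.injective_id.injOn hρ
    simpa using this
  · have hcb := cb_interp (Rt f l) hf.int (fun ρ hρ ρ' hρ' hne => hf.diff ρ hρ ρ' hρ' hne) u zero_le_one hn
    have hlift : P ∈ lifts (algebraMap ℤ_[l] ℚ_[l]) := by
      rw [lifts_iff_coeff_lifts]
      intro k
      have h1 := hcb k
      rw [← hP, coeff_map, norm_ext] at h1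
      exact ⟨⟨P.coeff k, h1⟩, rfl⟩
    exact (mem_lifts _).1 hlift

theorem norm_int_eval {f : ℤ[X]} (hf : GoodAt f l) (h : ℤ_[l][X]) {ρ : Om l} (hρ : ρ ∈ Rt f l) :
    ‖evl f l ρ (cl f ℚ_[l] (h.map (algebraMap ℤ_[l] ℚ_[l])))‖ ≤ 1 := by
  rw [evl_cl hρ]
  refine eval_le zero_le_one (fun k => ?_) (hf.int ρ hρ)
  rw [coeff_map, coeff_map, norm_ext]
  exact (h.coeff k).2

/-- **ZC-INTP** -/
theorem intp : S_INTP := by
  intro f l _ hf
  refine ⟨fun u hu hu0 => ?_, inj_at hf, fun u hu ρ hρ => ?_⟩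
  · obtain ⟨P, hP1, hP2⟩ := interp_at hf u hu
    obtain ⟨P', hP1', hP2'⟩ := interp_at hf (fun ρ => (u ρ)⁻¹) (fun g ρ hρ => by rw [hu g ρ hρ, map_inv₀])
    have hmul : cl f ℚ_[l] P * cl f ℚ_[l] P' = 1 := by
      apply inj_at hf
      intro ρ hρ
      unfold evl
      rw [ev_mul _ (isZ_of_mem hρ), ev_one _ (isZ_of_mem hρ)]
      have h1 := hP1 ρ hρ
      have h2 := hP1' ρ hρ
      unfold evl at h1 h2
      rw [h1, h2, mul_inv_cancel₀ (hu0 ρ hρ)]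
    refine ⟨⟨cl f ℚ_[l] P, cl f ℚ_[l] P', hmul, by rw [mul_comm]; exact hmul⟩, hP1, fun hn => ?_⟩
    obtain ⟨h, hh⟩ := hP2 (fun ρ hρ => (hn ρ hρ).le)
    obtain ⟨h', hh'⟩ := hP2' (fun ρ hρ => by rw [norm_inv, hn ρ hρ, inv_one])
    exact ⟨h, h', by rw [hh], by rw [hh']; rfl⟩
  · obtain ⟨h, h', hh, hh'⟩ := hu
    have a1 := norm_int_eval hf h hρ
    have a2 := norm_int_eval hf h' hρ
    rw [← hh] at a1
    rw [← hh'] at a2
    have h3 : evl f l ρ (u : Alg f ℚ_[l]) * evl f l ρ ((u⁻¹ : (Alg f ℚ_[l])ˣ) : Alg f ℚ_[l]) = 1 := by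
      unfold evl
      rw [← ev_mul _ (isZ_of_mem hρ), Units.mul_inv, ev_one _ (isZ_of_mem hρ)]
    have h4 : ‖evl f l ρ (u : Alg f ℚ_[l])‖ * ‖evl f l ρ ((u⁻¹ : (Alg f ℚ_[l])ˣ) : Alg f ℚ_[l])‖ = 1 := by
      rw [← norm_mul, h3, norm_one]
    refine le_antisymm a1 ?_
    calc 1 = ‖evl f l ρ (u : Alg f ℚ_[l])‖ * ‖evl f l ρ ((u⁻¹ : (Alg f ℚ_[l])ˣ) : Alg f ℚ_[l])‖ := h4.symm
      _ ≤ ‖evl f l ρ (u : Alg f ℚ_[l])‖ * 1 := mul_le_mul_of_nonneg_left a2 (norm_nonneg _)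
      _ = _ := mul_one _

end Pool.Agent.Q190.ZC
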