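import Pool.Agent.Q51.ZC.Stm2

/-!
# Project ZC (helper51): Lagrange interpolation over the algebraic closure of `ℚ_l`
-/

set_option autoImplicit false
set_option linter.all false

namespace Pool.Agent.Q190.ZC

open Polynomial Finset
open Pool.Agent.Q51.ZC

open scoped Classical

variable {l : ℕ} [Fact l.Prime]

theorem sub_le_max (x y : Om l) : ‖x - y‖ ≤ max ‖x‖ ‖y‖ := by
  rw [sub_eq_add_neg, ← norm_neg y]
  exact IsUltrametricDist.norm_add_le_max x (-y)

theorem sum_lt {ι : Type*} (s : Finset ι) (f : ι → Om l) {B : ℝ} (hB : 0 < B) (h : ∀ i ∈ s, ‖f i‖ < B) :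
    ‖∑ i ∈ s, f i‖ < B := by
  induction s using Finset.induction_on with
  | empty => simpa using hB
  | insert a s ha ih =>
    rw [sum_insert ha]
    exact (IsUltrametricDist.norm_add_le_max _ _).trans_lt (max_lt (h a (mem_insert_self _ _))
      (ih fun i hi => h i (mem_insert_of_mem hi)))

/-- all coefficients have norm at most `B` -/
def Cb (B : ℝ) (p : (Om l)[X]) : Prop := ∀ k, ‖p.coeff k‖ ≤ B

theorem cb_sum {ι : Type*} (s : Finset ι) (p : ι → (Om l)[X]) {B : ℝ} (hB : 0 ≤ B)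
    (h : ∀ i ∈ s, Cb B (p i)) : Cb B (∑ i ∈ s, p i) := by
  intro k
  rw [finsetSum_coeff]
  exact IsUltrametricDist.norm_sum_le_of_forall_le_of_nonneg hB fun i hi => h i hi k

theorem cb_mul {p q : (Om l)[X]} {B : ℝ} (hB : 0 ≤ B) (hp : Cb B p) (hq : Cb 1 q) : Cb B (p * q) := by
  intro k
  rw [coeff_mul]
  refine IsUltrametricDist.norm_sum_le_of_forall_le_of_nonneg hB fun i hi => ?_
  rw [norm_mul]
  calc ‖p.coeff i.1‖ * ‖q.coeff i.2‖ ≤ B * 1 := mul_le_mul (hp _) (hq _) (norm_nonneg _) hB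
    _ = B := mul_one B

theorem cb_C {c : Om l} {B : ℝ} (hB : 0 ≤ B) (hc : ‖c‖ ≤ B) : Cb B (C c) := by
  intro k
  rw [coeff_C]
  split_ifs
  · exact hc
  · rw [norm_zero]
    exact hB

theorem cb_one : Cb 1 (1 : (Om l)[X]) := by
  rw [← C_1]
  exact cb_C zero_le_one (by simp)

theorem cb_prod {ι : Type*} (s : Finset ι) (p : ι → (Om l)[X]) (h : ∀ i ∈ s, Cb 1 (p i)) :
    Cb 1 (∏ i ∈ s, p i) := by
  classical
  induction s using Finset.induction_on with
  | empty => simpa using cb_one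
  | insert a s ha ih =>
    rw [prod_insert ha]
    exact cb_mul zero_le_one (h a (mem_insert_self _ _)) (ih fun i hi => h i (mem_insert_of_mem hi))

theorem cb_X_sub {c : Om l} (hc : ‖c‖ ≤ 1) : Cb 1 (X - C c) := by
  intro k
  rw [coeff_sub, coeff_X, coeff_C]
  refine (sub_le_max _ _).trans (max_le ?_ ?_)
  · split_ifs <;> simp
  · split_ifs
    · exact hc
    · simp

theorem cb_basis (s : Finset (Om l)) (h1 : ∀ ρ ∈ s, ‖ρ‖ ≤ 1)
    (h2 : ∀ ρ ∈ s, ∀ ρ' ∈ s, ρ ≠ ρ' → ‖ρ - ρ'‖ = 1) {ρ : Om l} (hρ : ρ ∈ s) :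
    Cb 1 (Lagrange.basis s id ρ) := by
  unfold Lagrange.basis
  refine cb_prod _ _ fun ρ' hρ' => ?_
  obtain ⟨hne, hmem⟩ := mem_erase.1 hρ'
  unfold Lagrange.basisDivisor
  simp only [id]
  refine cb_mul zero_le_one (cb_C zero_le_one ?_) (cb_X_sub (h1 ρ' hmem))
  rw [norm_inv, h2 ρ hρ ρ' hmem hne.symm, inv_one]

theorem cb_interp (s : Finset (Om l)) (h1 : ∀ ρ ∈ s, ‖ρ‖ ≤ 1)
    (h2 : ∀ ρ ∈ s, ∀ ρ' ∈ s, ρ ≠ ρ' → ‖ρ - ρ'‖ = 1) (u : Om l → Om l) {B : ℝ} (hB : 0 ≤ B)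
    (hu : ∀ ρ ∈ s, ‖u ρ‖ ≤ B) : Cb B (Lagrange.interpolate s id u) := by
  rw [Lagrange.interpolate_apply]
  refine cb_sum s _ hB fun ρ hρ => ?_
  exact cb_mul hB (cb_C hB (hu ρ hρ)) (cb_basis s h1 h2 hρ)

/-- a polynomial with bounded coefficients is bounded on integral elements -/
theorem eval_le {p : (Om l)[X]} {B : ℝ} (hB : 0 ≤ B) (hp : Cb B p) {x : Om l} (hx : ‖x‖ ≤ 1) : ‖p.eval x‖ ≤ B := by
  rw [eval_eq_sum_range]
  refine IsUltrametricDist.norm_sum_le_of_forall_le_of_nonneg hB fun i _ => ?_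
  rw [norm_mul, norm_pow]
  calc ‖p.coeff i‖ * ‖x‖ ^ i ≤ B * 1 := mul_le_mul (hp i) (pow_le_one₀ (norm_nonneg _) hx) (by positivity) hB
    _ = B := mul_one B

/-- Galois descent of the interpolating polynomial -/
theorem descent (s : Finset (Om l)) (hs : ∀ (g : Om l ≃ₐ[ℚ_[l]] Om l), ∀ ρ ∈ s, g ρ ∈ s) (u : Om l → Om l)
    (hu : ∀ (g : Om l ≃ₐ[ℚ_[l]] Om l), ∀ ρ ∈ s, u (g ρ) = g (u ρ)) :
    ∃ P : ℚ_[l][X], P.map (algebraMap ℚ_[l] (Om l)) = Lagrange.interpolate s id u := by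
  set U : (Om l)[X] := Lagrange.interpolate s id u with hU
  have hinj : Set.InjOn (id : Om l → Om l) s := Function.injective_id.injOn
  have key : ∀ g : Om l ≃ₐ[ℚ_[l]] Om l, U.map (g : Om l →+* Om l) = U := by
    intro g
    apply Lagrange.eq_interpolate_of_eval_eq u hinj
    · exact (degree_map_le).trans_lt (Lagrange.degree_interpolate_lt u hinj)
    · intro ρ hρ
      have hρ' : g.symm ρ ∈ s := hs g.symm ρ hρ
      have h1 : ρ = g (g.symm ρ) := (g.apply_symm_apply ρ).symm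
      have h2 := Lagrange.eval_interpolate_at_node u hinj hρ'
      simp only [id] at h2 ⊢
      conv_lhs => rw [h1]
      have h3 : eval (g (g.symm ρ)) (U.map (g : Om l →+* Om l)) = g (eval (g.symm ρ) U) := by
        rw [eval_map]
        exact (Polynomial.hom_eval₂ U (RingHom.id _) (g : Om l →+* Om l) (g.symm ρ)).symm
      rw [h3, h2, ← hu g _ hρ', ← h1]
  have hlift : U ∈ lifts (algebraMap ℚ_[l] (Om l)) := by
    rw [lifts_iff_coeff_lifts]
    intro k
    have h1 : U.coeff k ∈ (⊥ : IntermediateField ℚ_[l] (Om l)) := by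
      rw [InfiniteGalois.mem_bot_iff_fixed]
      intro g
      have h2 := congrArg (fun p : (Om l)[X] => p.coeff k) (key g)
      simp only [coeff_map] at h2
      exact h2
    rw [IntermediateField.mem_bot] at h1
    exact h1
  exact (mem_lifts _).1 hlift

/-- **ZC-UNR** -/
theorem unr : S_UNR := by
  classical
  intro l _ T hT hconj y hy hfix
  have halg : IsAlgebraic ℚ_[l] T := Algebra.IsAlgebraic.isAlgebraic T
  have hint : IsIntegral ℚ_[l] T := halg.isIntegral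
  set m := minpoly ℚ_[l] T with hm
  set s : Finset (Om l) := (m.aroots (Om l)).toFinset with hs
  have hm0 : m ≠ 0 := minpoly.ne_zero hint
  have hmem : ∀ ρ, ρ ∈ s ↔ aeval ρ m = 0 := by
    intro ρ
    rw [hs, Multiset.mem_toFinset, mem_aroots]
    exact ⟨fun h => h.2, fun h => ⟨hm0, h⟩⟩
  have hTs : T ∈ s := (hmem T).2 (minpoly.aeval _ _)
  have hex : ∀ ρ ∈ s, ∃ g : Om l ≃ₐ[ℚ_[l]] Om l, g T = ρ := fun ρ hρ =>
    minpoly.exists_algEquiv_of_root' halg ((hmem ρ).1 hρ)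
  have hgs : ∀ (g : Om l ≃ₐ[ℚ_[l]] Om l), ∀ ρ ∈ s, g ρ ∈ s := by
    intro g ρ hρ
    rw [hmem] at hρ ⊢
    have : aeval (g ρ) m = g (aeval ρ m) := aeval_algHom_apply (g : Om l →ₐ[ℚ_[l]] Om l) ρ m
    rw [this, hρ, map_zero]
  -- the function `u`
  let u : Om l → Om l := fun ρ => if h : ∃ g : Om l ≃ₐ[ℚ_[l]] Om l, g T = ρ then h.choose y else 0
  have hu0 : ∀ g : Om l ≃ₐ[ℚ_[l]] Om l, u (g T) = g y := by
    intro g
    have h : ∃ g' : Om l ≃ₐ[ℚ_[l]] Om l, g' T = g T := ⟨g, rfl⟩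
    simp only [u]
    rw [dif_pos h]
    have h1 := h.choose_spec
    set g' := h.choose with hg'
    have h2 : (g'.trans g.symm) T = T := by
      show g.symm (g' T) = T
      rw [h1]
      exact g.symm_apply_apply T
    have h3 := hfix (g'.trans g.symm) h2
    have h4 : g.symm (g' y) = y := h3
    rw [← h4]
    have : g (g.symm (g' y)) = g' y := g.apply_symm_apply _
    rw [this, h4]
  have hu : ∀ (g : Om l ≃ₐ[ℚ_[l]] Om l), ∀ ρ ∈ s, u (g ρ) = g (u ρ) := by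
    intro g ρ hρ
    obtain ⟨g', rfl⟩ := hex ρ hρ
    have h1 : g (g' T) = (g'.trans g) T := rfl
    rw [hu0 g', h1, hu0]
    rfl
  obtain ⟨P, hP⟩ := descent s hgs u hu
  have hn1 : ∀ ρ ∈ s, ‖ρ‖ ≤ 1 := by
    intro ρ hρ
    obtain ⟨g, rfl⟩ := hex ρ hρ
    rw [norm_aut]
    exact hT
  have hn2 : ∀ ρ ∈ s, ∀ ρ' ∈ s, ρ ≠ ρ' → ‖ρ - ρ'‖ = 1 := by
    intro ρ hρ ρ' hρ' hne
    obtain ⟨g, rfl⟩ := hex ρ hρ
    obtain ⟨g', rfl⟩ := hex ρ' hρ'
    have h1 : ‖g T - g' T‖ = ‖(g.trans g'.symm) T - T‖ := by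
      rw [← norm_aut g' ((g.trans g'.symm) T - T), map_sub]
      congr 2
      exact (g'.apply_symm_apply (g T)).symm
    rw [h1]
    apply hconj
    intro h2
    apply hne
    have h3 : g'.symm (g T) = T := h2
    calc g T = g' (g'.symm (g T)) := (g'.apply_symm_apply _).symm
      _ = g' T := by rw [h3]
  have hub : ∀ ρ ∈ s, ‖u ρ‖ ≤ ‖y‖ := by
    intro ρ hρ
    obtain ⟨g, rfl⟩ := hex ρ hρ
    rw [hu0, norm_aut]
  have hcb := cb_interp s hn1 hn2 u (norm_nonneg y) hub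
  have hinj : Set.InjOn (id : Om l → Om l) s := Function.injective_id.injOn
  have hval : (Lagrange.interpolate s id u).eval T = y := by
    have h1 := Lagrange.eval_interpolate_at_node u hinj hTs
    simp only [id] at h1
    rw [h1]
    have h2 := hu0 AlgEquiv.refl
    simpa using h2
  have hypos : 0 < ‖y‖ := norm_pos_iff.2 hy
  obtain ⟨k, hk⟩ : ∃ k, ‖(Lagrange.interpolate s id u).coeff k‖ = ‖y‖ := by
    by_contra hcon
    push Not at hcon
    have hlt : ∀ k, ‖(Lagrange.interpolate s id u).coeff k‖ < ‖y‖ := fun k => lt_of_le_of_ne (hcb k) (hcon k)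
    have h1 : ‖(Lagrange.interpolate s id u).eval T‖ < ‖y‖ := by
      rw [eval_eq_sum_range]
      refine sum_lt _ _ hypos fun i _ => ?_
      rw [norm_mul, norm_pow]
      calc _ ≤ ‖(Lagrange.interpolate s id u).coeff i‖ * 1 :=
            mul_le_mul_of_nonneg_left (pow_le_one₀ (norm_nonneg _) hT) (norm_nonneg _)
        _ < ‖y‖ := by rw [mul_one]; exact hlt i
    rw [hval] at h1
    exact lt_irrefl _ h1
  rw [← hP, coeff_map, norm_ext] at hk
  have hne : P.coeff k ≠ 0 := by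
    intro h0
    rw [h0, norm_zero] at hk
    exact hypos.ne hk
  refine ⟨-(P.coeff k).valuation, ?_⟩
  rw [← hk]
  exact Padic.norm_eq_zpow_neg_valuation hne

end Pool.Agent.Q190.ZC
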