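import Pool.Agent.Q51.ZC.Stm
import Pool.Agent.Q239.EL.DESC

/-!
# Project ZC (helper51), job MSET: the normal forms of the vectors of valuations
-/

set_option autoImplicit false
set_option linter.all false

namespace Pool.Agent.Q190.ZC

open Polynomial NumberField IsDedekindDomain Finset
open Pool.Agent.Q51.EL (Abv N1)
open Pool.Agent.Q51.SE (Parq Zc)
open Pool.Agent.Q51.ZC
open Pool.Agent.Q239.EL

section

variable {L : Type} [Field L] [NumberField L]

theorem mem_ab {l : ℕ} (hl : l ≠ 0) (v : HeightOneSpectrum (𝓞 L)) : v ∈ ab L l ↔ Abv v l := by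
  classical
  have hfin : {v : HeightOneSpectrum (𝓞 L) | Abv v l}.Finite := ab_finite hl
  unfold ab
  rw [dif_pos hfin, Set.Finite.mem_toFinset]
  rfl

theorem ab_eq {l : ℕ} (hl : l ≠ 0) : ab L l = (ab_finite (L := L) hl).toFinset := by
  ext v
  rw [mem_ab hl, Set.Finite.mem_toFinset]
  rfl

/-- the sum of the degrees -/
theorem sum_dg {l : ℕ} (hl : l.Prime) (hs : Squarefree (Ideal.span {(l : 𝓞 L)})) :
    ∑ v ∈ ab L l, dg l v = Module.finrank ℚ L := by
  haveI : Fact l.Prime := ⟨hl⟩
  rw [ab_eq hl.ne_zero]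
  exact sum_ph (L := L) (l := l) hs

end

theorem mset : S_MSET := by
  classical
  intro L _ _ q B hG m hm hmB
  have hq := hG.pr
  have hq0 : (0 : ℤ) < q := by exact_mod_cast hq.pos
  have hqR : (1 : ℝ) ≤ q := by exact_mod_cast hq.one_lt.le
  have hlB : ∀ l ∈ m.primeFactors, l.Prime ∧ ¬ l ∣ B := by
    intro l hl
    have hlp := Nat.prime_of_mem_primeFactors hl
    refine ⟨hlp, fun h => ?_⟩
    have h1 := Nat.dvd_gcd (Nat.dvd_of_mem_primeFactors hl) h
    rw [hmB] at h1
    exact hlp.one_lt.ne' (Nat.dvd_one.1 h1)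
  have hsum : ∀ l ∈ m.primeFactors, ∑ v ∈ ab L l, dg l v = q := fun l hl => by
    rw [sum_dg (hlB l hl).1 (hG.ram l (hlB l hl).1 (hlB l hl).2), hG.deg]
  by_cases hex : ∀ l ∈ m.primeFactors, ∃ v ∈ ab L l, ¬ q ∣ dg l v
  swap
  · push Not at hex
    obtain ⟨l, hl, hall⟩ := hex
    refine ⟨∅, ?_, fun M' hM' => ?_⟩
    · rw [card_empty, Nat.cast_zero]
      exact prod_nonneg fun _ _ => by positivity
    · exfalso
      have h1 := hM' l hl
      unfold Deg1 at h1
      have h2 : (q : ℤ) ∣ ∑ v ∈ ab L l, (dg l v : ℤ) * M' l v :=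
        dvd_sum fun v hv => (Int.natCast_dvd_natCast.2 (hall v hv)).mul_right _
      have h3 : (q : ℤ) ∣ 1 := by
        have := dvd_sub h2 h1
        simpa using this
      exact (Nat.prime_iff_prime_int.1 hq).not_unit (isUnit_of_dvd_one h3)
  rcases m.primeFactors.eq_empty_or_nonempty with hemp | ⟨l0, hl0⟩
  · rw [hemp]
    refine ⟨{fun _ => 0}, by simp, fun M' _ => ⟨fun _ => 0, mem_singleton_self _, by simp⟩⟩
  haveI : Nonempty (HeightOneSpectrum (𝓞 L)) := ⟨(hex l0 hl0).choose⟩
  choose! v1 hv1 hv1q using hex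
  have hex2 : ∀ l ∈ m.primeFactors, ∃ w ∈ ab L l, w ≠ v1 l := by
    intro l hl
    by_contra hcon
    push Not at hcon
    have h1 : ab L l = {v1 l} := by
      ext v
      rw [mem_singleton]
      exact ⟨fun h => hcon v h, fun h => h ▸ hv1 l hl⟩
    have h2 := hsum l hl
    rw [h1, sum_singleton] at h2
    exact hv1q l hl (h2 ▸ dvd_refl _)
  choose! w hw hwv using hex2
  have hex3 : ∀ l ∈ m.primeFactors, ∃ c : ℤ, (q : ℤ) ∣ (dg l (v1 l) : ℤ) * c - 1 := by
    intro l hl
    have h1 : IsCoprime (q : ℤ) (dg l (v1 l) : ℤ) :=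
      (Nat.prime_iff_prime_int.1 hq).coprime_iff_not_dvd.2 (fun h => hv1q l hl (Int.natCast_dvd_natCast.1 h))
    obtain ⟨x, y, hxy⟩ := h1
    exact ⟨y, -x, by linarith⟩
  choose! c hc using hex3
  set A : ℕ → Finset (HeightOneSpectrum (𝓞 L)) := fun l => ((ab L l).erase (w l)).erase (v1 l) with hA
  set U : Finset (HeightOneSpectrum (𝓞 L)) := m.primeFactors.biUnion A with hU
  have hcardA : ∀ l ∈ m.primeFactors, (A l).card + 2 = (ab L l).card := by
    intro l hl
    have h1 : v1 l ∈ (ab L l).erase (w l) := mem_erase.2 ⟨(hwv l hl).symm, hv1 l hl⟩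
    have h2 := card_erase_add_one h1
    have h3 := card_erase_add_one (hw l hl)
    rw [hA]
    simp only
    omega
  have huniq : ∀ l ∈ m.primeFactors, ∀ l' ∈ m.primeFactors, ∀ v, v ∈ ab L l → v ∈ ab L l' → l = l' := by
    intro l hl l' hl' v hv hv'
    have h1 := (hlB l hl).1
    have h2 := (hlB l' hl').1
    rw [mem_ab h1.ne_zero] at hv
    rw [mem_ab h2.ne_zero] at hv'
    exact prime_unique h1 h2 hv hv'
  have hAab : ∀ l, ∀ v ∈ A l, v ∈ ab L l := fun l v hv => mem_of_mem_erase (mem_of_mem_erase hv)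
  -- the functions
  let F : (U → Fin q) → HeightOneSpectrum (𝓞 L) → ℤ := fun f v => if h : v ∈ U then ((f ⟨v, h⟩ : ℕ) : ℤ) else 0
  let G : (U → Fin q) → HeightOneSpectrum (𝓞 L) → ℤ := fun f v =>
    if v ∈ U then F f v else
      if h : ∃ l ∈ m.primeFactors, v = v1 l then
        c h.choose * (1 - ∑ v' ∈ A h.choose, (dg h.choose v' : ℤ) * F f v') else 0
  refine ⟨univ.image G, ?_, fun M' hM' => ?_⟩
  · have h1 : ((univ.image G).card : ℝ) ≤ (q : ℝ) ^ U.card := by
      have h2 : (univ.image G).card ≤ q ^ U.card := by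
        refine card_image_le.trans (le_of_eq ?_)
        rw [card_univ, Fintype.card_fun, Fintype.card_fin, Fintype.card_coe]
      exact_mod_cast h2
    refine h1.trans ?_
    have h3 : ∏ l ∈ m.primeFactors, (q : ℝ) ^ (((ab L l).card : ℤ) - 2) = (q : ℝ) ^ (∑ l ∈ m.primeFactors, (A l).card) := by
      rw [← prod_pow_eq_pow_sum]
      refine prod_congr rfl fun l hl => ?_
      rw [← hcardA l hl]
      push_cast
      rw [add_sub_cancel_right, zpow_natCast]
    rw [h3]
    exact pow_le_pow_right₀ hqR card_biUnion_le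
  · -- the prime below
    have hlb : ∀ u : U, ∃ l ∈ m.primeFactors, (u : HeightOneSpectrum (𝓞 L)) ∈ A l := fun u => mem_biUnion.1 u.2
    choose lb hlb1 hlb2 using hlb
    let f : U → Fin q := fun u => ⟨((M' (lb u) u - M' (lb u) (w (lb u))) % q).toNat, by
      have h1 := Int.emod_lt_of_pos (M' (lb u) u - M' (lb u) (w (lb u))) hq0
      have h2 := Int.emod_nonneg (M' (lb u) u - M' (lb u) (w (lb u))) hq0.ne'
      omega⟩
    refine ⟨G f, mem_image_of_mem _ (mem_univ _), fun l hl => ⟨M' l (w l), fun v hv => ?_⟩⟩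
    have hl0' := (hlB l hl).1.ne_zero
    have hvab : v ∈ ab L l := (mem_ab hl0' v).2 hv
    -- the values on `A l`
    have hF : ∀ v ∈ A l, (q : ℤ) ∣ (M' l v - M' l (w l)) - F f v := by
      intro v hvA
      have hvU : v ∈ U := mem_biUnion.2 ⟨l, hl, hvA⟩
      have hlbv : lb ⟨v, hvU⟩ = l :=
        huniq _ (hlb1 _) l hl v (hAab _ v (hlb2 ⟨v, hvU⟩)) (hAab _ v hvA)
      have h1 : F f v = (M' l v - M' l (w l)) % q := by
        simp only [F, f]
        rw [dif_pos hvU, hlbv]
        exact Int.toNat_of_nonneg (Int.emod_nonneg _ hq0.ne')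
      rw [h1]
      exact Int.dvd_self_sub_emod
    by_cases hvU : v ∈ U
    · have hvA : v ∈ A l := by
        obtain ⟨l', hl', hvA'⟩ := mem_biUnion.1 hvU
        rw [← huniq l' hl' l hl v (hAab l' v hvA') hvab]
        exact hvA'
      have h1 := hF v hvA
      have h2 : G f v = F f v := by
        simp only [G]
        rw [if_pos hvU]
      rw [h2]
      have e : M' l v - (F f v + M' l (w l)) = M' l v - M' l (w l) - F f v := by ring
      rw [e]
      exact h1
    · by_cases hvv : v = v1 l
      · have hex' : ∃ l' ∈ m.primeFactors, v = v1 l' := ⟨l, hl, hvv⟩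
        have h1 : G f v = c l * (1 - ∑ v' ∈ A l, (dg l v' : ℤ) * F f v') := by
          simp only [G]
          rw [if_neg hvU, dif_pos hex']
          have hch : hex'.choose = l := by
            have h2 := hex'.choose_spec
            refine huniq _ h2.1 l hl v ?_ hvab
            have h3 := hv1 _ h2.1
            rw [← h2.2] at h3
            exact h3
          rw [hch]
        rw [h1]
        -- Deg1
        have h2 := hM' l hl
        unfold Deg1 at h2
        have h3 : ∑ v ∈ ab L l, (dg l v : ℤ) * M' l v = ∑ v ∈ ab L l, (dg l v : ℤ) * (M' l v - M' l (w l)) +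
            q * M' l (w l) := by
          have h4 : ((∑ v ∈ ab L l, dg l v : ℕ) : ℤ) = q := by exact_mod_cast hsum l hl
          rw [← h4]
          push_cast
          rw [sum_mul, ← sum_add_distrib]
          exact sum_congr rfl fun _ _ => by ring
        have h5 : ∑ v ∈ ab L l, (dg l v : ℤ) * (M' l v - M' l (w l)) =
            (dg l (v1 l) : ℤ) * (M' l (v1 l) - M' l (w l)) + ∑ v ∈ A l, (dg l v : ℤ) * (M' l v - M' l (w l)) := by
          rw [← add_sum_erase _ _ (hw l hl), sub_self, mul_zero, zero_add,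
            ← add_sum_erase _ _ (mem_erase.2 ⟨(hwv l hl).symm, hv1 l hl⟩)]
        have h6 : (q : ℤ) ∣ ∑ v ∈ A l, (dg l v : ℤ) * (M' l v - M' l (w l)) - ∑ v' ∈ A l, (dg l v' : ℤ) * F f v' := by
          rw [← sum_sub_distrib]
          refine dvd_sum fun v hv => ?_
          rw [← mul_sub]
          exact (hF v hv).mul_left _
        have h7 := hc l hl
        rw [← hvv] at h5 h7
        rw [h3, h5] at h2
        obtain ⟨a, ha⟩ := h2
        obtain ⟨b, hb⟩ := h6
        obtain ⟨d, hd⟩ := h7
        set D : ℤ := (dg l v : ℤ) with hD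
        set S1 : ℤ := ∑ v ∈ A l, (dg l v : ℤ) * (M' l v - M' l (w l)) with hS1
        set S2 : ℤ := ∑ v' ∈ A l, (dg l v' : ℤ) * F f v' with hS2
        -- D * (M' v - M' w) = 1 - S2 mod q, D * c = 1 mod q
        refine ⟨c l * (a - b - M' l (w l)) - d * (M' l v - M' l (w l)), ?_⟩
        have e1 : D * (M' l v - M' l (w l)) = 1 + q * a - q * M' l (w l) - S1 := by linarith
        have e2 : S1 = S2 + q * b := by linarith
        have e3 : D * c l = 1 + q * d := by linarith
        have e4 : (M' l v - M' l (w l)) * (D * c l) = c l * (1 + q * a - q * M' l (w l) - S1) := by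
          rw [← e1]
          ring
        rw [e3, e2] at e4
        linear_combination e4
      · have hvw : v = w l := by
          by_contra h
          exact hvU (mem_biUnion.2 ⟨l, hl, mem_erase.2 ⟨hvv, mem_erase.2 ⟨h, hvab⟩⟩⟩)
        have h1 : G f v = 0 := by
          simp only [G]
          rw [if_neg hvU, dif_neg]
          rintro ⟨l', hl', hv'⟩
          have h2 : l' = l := by
            refine huniq _ hl' l hl v ?_ hvab
            rw [hv']
            exact hv1 l' hl'
          rw [h2] at hv'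
          exact hvv hv'
        rw [h1, hvw]
        simp

end Pool.Agent.Q190.ZC
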