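import Pool.Agent.Q51.ZC.Stm
import Pool.Agent.Q65.SE.CHQ
import Pool.Agent.Q239.EL.DESC

/-!
# Project ZC (helper51), job CLS, part 1: the relation `Rel` in the residue fields
-/

set_option autoImplicit false
set_option linter.all false

namespace Pool.Agent.Q190.ZC

open Polynomial NumberField IsDedekindDomain Finset
open Pool.Agent.Q51.EL (Abv N1)
open Pool.Agent.Q51.SE (Parq Zc)
open Pool.Agent.Q51.ZC
open Pool.Agent.Q239.EL

variable {L : Type} [Field L] [NumberField L]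

/-- congruence modulo `v` of elements integral at `v` -/
def Cg (v : HeightOneSpectrum (𝓞 L)) (x y : L) : Prop :=
  v.valuation L x ≤ 1 ∧ v.valuation L y ≤ 1 ∧ v.valuation L (x - y) < 1

theorem Cg.mul {v : HeightOneSpectrum (𝓞 L)} {x x' y y' : L} (h1 : Cg v x x') (h2 : Cg v y y') :
    Cg v (x * y) (x' * y') := by
  obtain ⟨a1, a2, a3⟩ := h1
  obtain ⟨b1, b2, b3⟩ := h2
  refine ⟨?_, ?_, ?_⟩
  · rw [map_mul]
    exact mul_le_one' a1 b1
  · rw [map_mul]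
    exact mul_le_one' a2 b2
  · have e : x * y - x' * y' = x * (y - y') + (x - x') * y' := by ring
    rw [e]
    refine (Valuation.map_add _ _ _).trans_lt (max_lt ?_ ?_)
    · rw [map_mul]
      exact (mul_le_mul_left a1 _).trans_lt (by rwa [one_mul])
    · rw [map_mul]
      exact (mul_le_mul_right b2 _).trans_lt (by rwa [mul_one])

theorem Cg.one (v : HeightOneSpectrum (𝓞 L)) : Cg v (1 : L) 1 := by
  refine ⟨?_, ?_, ?_⟩ <;> simp

theorem Cg.pow {v : HeightOneSpectrum (𝓞 L)} {x x' : L} (h1 : Cg v x x') (n : ℕ) :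
    Cg v (x ^ n) (x' ^ n) := by
  induction n with
  | zero => simpa using Cg.one v
  | succ n ih =>
    rw [pow_succ, pow_succ]
    exact ih.mul h1

theorem Cg.refl {v : HeightOneSpectrum (𝓞 L)} {x : L} (h : v.valuation L x ≤ 1) : Cg v x x := by
  refine ⟨h, h, ?_⟩
  simp

theorem val_int_one {v : HeightOneSpectrum (𝓞 L)} {l : ℕ} (hl : l.Prime) (hv : Abv v l) {z : ℤ}
    (hz : ¬ (l : ℤ) ∣ z) : v.valuation L (z : L) = 1 := by
  have h1 : ((z : 𝓞 L) : L) = (z : L) := by simp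
  rw [← h1]
  exact (HeightOneSpectrum.valuation_eq_one_iff_notMem (K := L) v).2 (fun h => hz ((int_mem_iff hl hv z).1 h))

theorem frac_cg {v : HeightOneSpectrum (𝓞 L)} {l : ℕ} (hl : l.Prime) (hv : Abv v l) {a b c : ℤ}
    (ha : ¬ (l : ℤ) ∣ a) (hb : ¬ (l : ℤ) ∣ b) (hc : (l : ℤ) ∣ b * c - 1) :
    Cg v ((a : L) / (b : L)) ((a * c : ℤ) : L) := by
  have hva := val_int_one (L := L) hl hv ha
  have hvb := val_int_one (L := L) hl hv hb
  have hb0 : (b : L) ≠ 0 := by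
    intro h
    rw [h, map_zero] at hvb
    exact zero_ne_one hvb
  have hdiv : v.valuation L ((a : L) / (b : L)) = 1 := by rw [map_div₀, hva, hvb, div_one]
  refine ⟨hdiv.le, ?_, ?_⟩
  · have h1 : (((a * c : ℤ) : 𝓞 L) : L) = ((a * c : ℤ) : L) := by simp
    rw [← h1]
    exact v.valuation_le_one _
  · have e : (a : L) / (b : L) - ((a * c : ℤ) : L) = -((a : L) / (b : L)) * ((b * c - 1 : ℤ) : L) := by
      push_cast
      field_simp
      ring
    rw [e, map_mul, Valuation.map_neg, hdiv, one_mul]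
    have h1 : (((b * c - 1 : ℤ) : 𝓞 L) : L) = ((b * c - 1 : ℤ) : L) := by simp
    rw [← h1]
    exact (HeightOneSpectrum.valuation_lt_one_iff_mem (K := L) v _).2 ((int_mem_iff hl hv _).2 hc)

theorem exists_inv_mod {l : ℕ} (hl : l.Prime) {b : ℤ} (hb : ¬ (l : ℤ) ∣ b) :
    ∃ c : ℤ, ¬ (l : ℤ) ∣ c ∧ (l : ℤ) ∣ b * c - 1 := by
  have h1 : IsCoprime (l : ℤ) b := (Nat.prime_iff_prime_int.mp hl).coprime_iff_not_dvd.2 hb
  obtain ⟨x, y, hxy⟩ := h1
  have h2 : (l : ℤ) ∣ b * y - 1 := ⟨-x, by linarith⟩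
  refine ⟨y, fun h => ?_, h2⟩
  have h3 : (l : ℤ) ∣ 1 := by
    have := dvd_sub (h.mul_left b) h2
    simpa using this
  exact (Nat.prime_iff_prime_int.mp hl).not_unit (isUnit_of_dvd_one h3)

/-- the relation `Rel` in the residue fields -/
theorem rel_res {q l : ℕ} (hq : q.Prime) (hl : l.Prime) (hsq : Squarefree (Ideal.span {(l : 𝓞 L)}))
    {M : HeightOneSpectrum (𝓞 L) → ℤ} {γ0 γ : 𝓞 L} (h0 : ∀ v : HeightOneSpectrum (𝓞 L), Abv v l → γ0 ∉ v.asIdeal)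
    (h1 : ∀ v : HeightOneSpectrum (𝓞 L), Abv v l → γ ∉ v.asIdeal) (hR : Rel q l M (γ0 : L) (γ : L)) :
    ∃ e1 e2 : ℤ, ¬ (l : ℤ) ∣ e1 ∧ ¬ (l : ℤ) ∣ e2 ∧ ∀ v : HeightOneSpectrum (𝓞 L), Abv v l → ∃ h : 𝓞 L,
      γ - (e1 : 𝓞 L) * (e2 : 𝓞 L) ^ (M v % q).toNat * h ^ q * γ0 ∈ v.asIdeal := by
  haveI : Fact l.Prime := ⟨hl⟩
  obtain ⟨s1, s2, hs1, hs2, hp2, hg⟩ := hR
  obtain ⟨k1, a1, b1, ha1, hb1, hs1e⟩ := Pool.Agent.Q65.SE.rat_split hl hs1
  obtain ⟨k2, a2, b2, ha2, hb2, hs2e⟩ := Pool.Agent.Q65.SE.rat_split hl hs2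
  have hnz : ∀ {z : ℤ}, ¬ (l : ℤ) ∣ z → z ≠ 0 := fun hz h => hz (h ▸ dvd_zero _)
  have hlp := Nat.prime_iff_prime_int.mp hl
  have hlQ : (l : ℚ) ≠ 0 := by exact_mod_cast hl.ne_zero
  have hlL : (l : L) ≠ 0 := by exact_mod_cast hl.ne_zero
  have hk2 : k2 = 0 := by
    have hA : (a2 : ℚ) ≠ 0 := by exact_mod_cast hnz ha2
    have hB : (b2 : ℚ) ≠ 0 := by exact_mod_cast hnz hb2
    have hpw : padicValRat l ((l : ℚ) ^ k2) = k2 := by
      rw [padicValRat.zpow]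
      simp [padicValRat.self hl.one_lt]
    rw [hs2e, padicValRat.div (mul_ne_zero (zpow_ne_zero _ hlQ) hA) hB, padicValRat.mul (zpow_ne_zero _ hlQ) hA,
      hpw, padicValRat.of_int, padicValRat.of_int, padicValInt.eq_zero_of_not_dvd ha2,
      padicValInt.eq_zero_of_not_dvd hb2] at hp2
    simpa using hp2
  rw [hk2, zpow_zero, one_mul] at hs2e
  obtain ⟨c1, hc1, hc1'⟩ := exists_inv_mod hl hb1
  obtain ⟨c2, hc2, hc2'⟩ := exists_inv_mod hl hb2
  refine ⟨a1 * c1, a2 * c2, fun h => (hlp.dvd_or_dvd h).elim ha1 hc1, fun h => (hlp.dvd_or_dvd h).elim ha2 hc2, ?_⟩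
  -- valuations
  have hvl : ∀ v : HeightOneSpectrum (𝓞 L), Abv v l → v.valuation L (l : L) = WithZero.exp (-1 : ℤ) := by
    intro v hv
    have h2 : ((l : 𝓞 L) : L) = (l : L) := by simp
    rw [← h2, val_int v (by exact_mod_cast hl.ne_zero), mu_l hsq hv]
    rfl
  have hs1L : (s1 : L) = (l : L) ^ k1 * ((a1 : L) / (b1 : L)) := by
    rw [hs1e]
    push_cast
    rw [mul_div_assoc]
  have hs2L : (s2 : L) = (a2 : L) / (b2 : L) := by
    rw [hs2e]
    push_cast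
    rfl
  have hu : ∀ v : HeightOneSpectrum (𝓞 L), Abv v l → ∀ {a b : ℤ}, ¬ (l : ℤ) ∣ a → ¬ (l : ℤ) ∣ b →
      v.valuation L ((a : L) / (b : L)) = 1 := by
    intro v hv a b ha hb
    rw [map_div₀, val_int_one hl hv ha, val_int_one hl hv hb, div_one]
  have hvγ : ∀ v : HeightOneSpectrum (𝓞 L), Abv v l → v.valuation L (γ : L) = 1 := fun v hv =>
    (HeightOneSpectrum.valuation_eq_one_iff_notMem (K := L) v).2 (h1 v hv)
  have hvγ0 : ∀ v : HeightOneSpectrum (𝓞 L), Abv v l → v.valuation L (γ0 : L) = 1 := fun v hv =>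
    (HeightOneSpectrum.valuation_eq_one_iff_notMem (K := L) v).2 (h0 v hv)
  have key : ∀ v : HeightOneSpectrum (𝓞 L), Abv v l → ∃ g : L, g ≠ 0 ∧ ∃ m : ℤ, v.valuation L g = WithZero.exp m ∧
      (q : ℤ) * m = k1 ∧ v.valuation L ((γ : L) - (s1 : L) * (s2 : L) ^ (M v) * g ^ q * (γ0 : L)) < 1 := by
    intro v hv
    obtain ⟨g, hg0, hgv⟩ := hg v hv
    rw [hvγ v hv] at hgv
    obtain ⟨m, hm⟩ := val_exp (v := v) hg0
    refine ⟨g, hg0, m, hm, ?_, hgv⟩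
    have h2 : v.valuation L ((s1 : L) * (s2 : L) ^ (M v) * g ^ q * (γ0 : L)) = 1 := by
      have h3 : (s1 : L) * (s2 : L) ^ (M v) * g ^ q * (γ0 : L) =
          (γ : L) + -((γ : L) - (s1 : L) * (s2 : L) ^ (M v) * g ^ q * (γ0 : L)) := by ring
      rw [h3, Valuation.map_add_eq_of_lt_left _ (by rw [Valuation.map_neg, hvγ v hv]; exact hgv), hvγ v hv]
    rw [map_mul, map_mul, map_mul, map_pow, map_zpow₀, hvγ0 v hv, mul_one, hs2L, hu v hv ha2 hb2, one_zpow,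
      mul_one, hs1L, map_mul, hu v hv ha1 hb1, mul_one, map_zpow₀, hvl v hv, hm, ← WithZero.exp_nsmul,
      ← WithZero.exp_zsmul, ← WithZero.exp_add, ← WithZero.exp_zero, WithZero.exp_inj] at h2
    simp only [smul_eq_mul, nsmul_eq_mul] at h2
    linarith
  have hq0 : (q : ℤ) ≠ 0 := by exact_mod_cast hq.ne_zero
  intro v hv
  obtain ⟨g, hg0, m, hm, hmk, hgv⟩ := key v hv
  have hr0 : 0 ≤ M v % q := Int.emod_nonneg _ hq0
  set r : ℕ := (M v % q).toNat with hr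
  have hrr : (r : ℤ) = M v % q := Int.toNat_of_nonneg hr0
  set t : ℤ := M v / q with ht
  have hMv : M v = r + q * t := by
    rw [hrr, ht]
    exact (Int.emod_add_mul_ediv _ _).symm
  have hs20 : (s2 : L) ≠ 0 := by exact_mod_cast hs2
  set g' : L := g * (l : L) ^ m * (s2 : L) ^ t with hg'
  have hg'v : v.valuation L g' = 1 := by
    rw [hg', map_mul, map_mul, map_zpow₀, map_zpow₀, hs2L, hu v hv ha2 hb2, one_zpow, mul_one, hvl v hv, hm,
      ← WithZero.exp_zsmul, ← WithZero.exp_add, ← WithZero.exp_zero, WithZero.exp_inj]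
    simp
  have heq : (s1 : L) * (s2 : L) ^ (M v) * g ^ q = ((a1 : L) / (b1 : L)) * ((a2 : L) / (b2 : L)) ^ r * g' ^ q := by
    have e1 : (l : L) ^ k1 = ((l : L) ^ m) ^ q := by
      rw [← hmk, mul_comm, zpow_mul, zpow_natCast]
    have e2 : (s2 : L) ^ (M v) = (s2 : L) ^ r * ((s2 : L) ^ t) ^ q := by
      rw [hMv, zpow_add₀ hs20, zpow_natCast, mul_comm (q : ℤ) t, zpow_mul, zpow_natCast]
    rw [← hs2L, hs1L, hg', e1, e2]
    ring
  obtain ⟨h, hh⟩ := v.exists_valuation_sub_lt_of_integer (K := L) (x := g') hg'v.le 1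
  have c1g : Cg v g' (h : L) := by
    refine ⟨hg'v.le, v.valuation_le_one _, ?_⟩
    rw [← Valuation.map_sub_swap]
    exact hh
  have cc := ((((frac_cg (L := L) hl hv ha1 hb1 hc1').mul ((frac_cg (L := L) hl hv ha2 hb2 hc2').pow r)).mul
    (c1g.pow q)).mul (Cg.refl (v := v) (x := (γ0 : L)) (v.valuation_le_one _)))
  refine ⟨h, ?_⟩
  have h3 : v.valuation L ((γ : L) - ((a1 * c1 : ℤ) : L) * ((a2 * c2 : ℤ) : L) ^ r * (h : L) ^ q * (γ0 : L)) < 1 := by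
    have e : (γ : L) - ((a1 * c1 : ℤ) : L) * ((a2 * c2 : ℤ) : L) ^ r * (h : L) ^ q * (γ0 : L) =
        ((γ : L) - (s1 : L) * (s2 : L) ^ (M v) * g ^ q * (γ0 : L)) +
        (((a1 : L) / (b1 : L)) * ((a2 : L) / (b2 : L)) ^ r * g' ^ q * (γ0 : L) -
        ((a1 * c1 : ℤ) : L) * ((a2 * c2 : ℤ) : L) ^ r * (h : L) ^ q * (γ0 : L)) := by
      rw [heq]
      ring
    rw [e]
    exact (Valuation.map_add _ _ _).trans_lt (max_lt hgv cc.2.2)
  rw [← HeightOneSpectrum.valuation_lt_one_iff_mem (K := L) v]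
  convert h3 using 2
  simp

end Pool.Agent.Q190.ZC
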