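import Pool.Agent.Q190.ZC.Lag

/-!
# Project ZC (helper51), job TEI: Teichmüller representatives in the algebraic closure of `ℚ_l`
-/

set_option autoImplicit false
set_option linter.all false

namespace Pool.Agent.Q190.ZC

open Polynomial Finset
open Pool.Agent.Q51.ZC

open scoped Classical

variable {l : ℕ} [Fact l.Prime]

/-- the ring of integers -/
def OO (l : ℕ) [Fact l.Prime] : Subring (Om l) where
  carrier := {x | ‖x‖ ≤ 1}
  mul_mem' := by
    intro a b ha hb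
    show ‖a * b‖ ≤ 1
    rw [norm_mul]
    exact mul_le_one₀ ha (norm_nonneg _) hb
  one_mem' := by
    show ‖(1 : Om l)‖ ≤ 1
    rw [norm_one]
  add_mem' := by
    intro a b ha hb
    exact (IsUltrametricDist.norm_add_le_max a b).trans (max_le ha hb)
  zero_mem' := by
    show ‖(0 : Om l)‖ ≤ 1
    rw [norm_zero]
    exact zero_le_one
  neg_mem' := by
    intro a ha
    show ‖-a‖ ≤ 1
    rw [norm_neg]
    exact ha

theorem norm_l_lt : ‖(l : Om l)‖ < 1 := by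
  have h1 : (l : Om l) = algebraMap ℚ_[l] (Om l) (l : ℚ_[l]) := by simp
  rw [h1, norm_ext]
  exact Padic.norm_p_lt_one

/-- the binomial formula for `l ^ n`-th powers -/
theorem binom {x y : Om l} (hx : ‖x‖ ≤ 1) (hy : ‖y‖ ≤ 1) (n : ℕ) :
    ∃ r : Om l, ‖r‖ ≤ 1 ∧ (x + y) ^ l ^ n = x ^ l ^ n + y ^ l ^ n + l * x * y * r := by
  obtain ⟨r, hr⟩ := exists_add_pow_prime_pow_eq (R := OO l) (Fact.out : l.Prime) ⟨x, hx⟩ ⟨y, hy⟩ n
  refine ⟨r, r.2, ?_⟩
  have h1 := congrArg (fun z : OO l => (z : Om l)) hr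
  simpa using h1

theorem pow_close {x y : Om l} (hx : ‖x‖ ≤ 1) (hy : ‖y‖ ≤ 1) {n : ℕ} (h : ‖x ^ l ^ n - y ^ l ^ n‖ < 1) :
    ‖x - y‖ < 1 := by
  have hxy : ‖x - y‖ ≤ 1 := (sub_le_max x y).trans (max_le hx hy)
  obtain ⟨r, hr, he⟩ := binom hxy hy n
  rw [sub_add_cancel] at he
  have h1 : (x - y) ^ l ^ n = (x ^ l ^ n - y ^ l ^ n) - l * (x - y) * y * r := by
    rw [he]
    ring
  have h2 : ‖(l : Om l) * (x - y) * y * r‖ < 1 := by
    rw [norm_mul, norm_mul, norm_mul]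
    have a1 : ‖x - y‖ * ‖y‖ ≤ 1 := mul_le_one₀ hxy (norm_nonneg _) hy
    have a2 : ‖x - y‖ * ‖y‖ * ‖r‖ ≤ 1 := mul_le_one₀ a1 (norm_nonneg _) hr
    calc ‖(l : Om l)‖ * ‖x - y‖ * ‖y‖ * ‖r‖ = ‖(l : Om l)‖ * (‖x - y‖ * ‖y‖ * ‖r‖) := by ring
      _ ≤ ‖(l : Om l)‖ * 1 := mul_le_mul_of_nonneg_left a2 (norm_nonneg _)
      _ < 1 := by rw [mul_one]; exact norm_l_lt
  have h3 : ‖(x - y) ^ l ^ n‖ < 1 := by
    rw [h1]
    exact (sub_le_max _ _).trans_lt (max_lt h h2)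
  rw [norm_pow] at h3
  by_contra hcon
  exact absurd h3 (not_lt.2 (one_le_pow₀ (not_lt.1 hcon)))

/-- integral elements are zeros of monic polynomials over `ℤ_l` -/
theorem monic_of_int {ξ : Om l} (hξ : ‖ξ‖ ≤ 1) : ∃ m : ℤ_[l][X], m.Monic ∧
    m.eval₂ ((algebraMap ℚ_[l] (Om l)).comp (algebraMap ℤ_[l] ℚ_[l])) ξ = 0 := by
  have hint : IsIntegral ℚ_[l] ξ := (Algebra.IsAlgebraic.isAlgebraic ξ).isIntegral
  have hmon := minpoly.monic hint
  have h1 : ∀ n, ‖(minpoly ℚ_[l] ξ).coeff n‖ ≤ 1 := by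
    rw [← spectralValue_le_one_iff hmon]
    exact hξ
  have hlift : minpoly ℚ_[l] ξ ∈ lifts (algebraMap ℤ_[l] ℚ_[l]) := by
    rw [lifts_iff_coeff_lifts]
    intro k
    exact ⟨⟨_, h1 k⟩, rfl⟩
  obtain ⟨m, hm1, hm2, hm3⟩ := lifts_and_natDegree_eq_and_monic hlift hmon
  refine ⟨m, hm3, ?_⟩
  rw [← eval₂_map, hm1]
  exact minpoly.aeval ℚ_[l] ξ

/-- the Frobenius has finite order on the class of an integral element -/
theorem exists_period {ξ : Om l} (hξ : ‖ξ‖ ≤ 1) : ∃ N : ℕ, 1 ≤ N ∧ ‖ξ ^ l ^ N - ξ‖ < 1 := by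
  obtain ⟨m, hm, hroot⟩ := monic_of_int hξ
  set φ : ℤ_[l] →+* Om l := (algebraMap ℚ_[l] (Om l)).comp (algebraMap ℤ_[l] ℚ_[l]) with hφ
  have hφn : ∀ c : ℤ_[l], ‖φ c‖ = ‖c‖ := by
    intro c
    rw [hφ, RingHom.comp_apply, norm_ext]
    rfl
  set R : ℕ → ℤ_[l][X] := fun n => X ^ n %ₘ m with hR
  have hRe : ∀ n, (R n).eval₂ φ ξ = ξ ^ n := by
    intro n
    have h1 : (R n).eval₂ φ ξ = (X ^ n : ℤ_[l][X]).eval₂ φ ξ := by
      have h2 := modByMonic_add_div (X ^ n : ℤ_[l][X]) m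
      conv_rhs => rw [← h2, eval₂_add, eval₂_mul, hroot, zero_mul, add_zero]
    rw [h1]
    simp
  set r : ℕ := m.natDegree with hr
  have hdeg : ∀ n, ∀ k, r ≤ k → (R n).coeff k = 0 := by
    intro n k hk
    apply coeff_eq_zero_of_degree_lt
    refine (degree_modByMonic_lt _ hm).trans_le ?_
    rw [degree_eq_natDegree hm.ne_zero]
    exact_mod_cast hk
  have hsum : ∀ n, ξ ^ n = ∑ i ∈ range r, φ ((R n).coeff i) * ξ ^ i := by
    intro n
    rw [← hRe n]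
    rw [eval₂_eq_sum_range' φ (n := r) ?_ ξ]
    by_contra h
    push Not at h
    rcases Nat.eq_zero_or_pos r with h0 | h0
    · have h1 : m = 1 := hm.natDegree_eq_zero.1 h0
      rw [h1, eval₂_one] at hroot
      exact one_ne_zero hroot
    · have h2 := hdeg n (R n).natDegree h
      have h3 : R n = 0 := leadingCoeff_eq_zero.1 h2
      rw [h3, natDegree_zero] at h
      omega
  haveI : NeZero l := ⟨(Fact.out : l.Prime).ne_zero⟩
  let F : ℕ → (Fin r → ZMod l) := fun j i => PadicInt.toZMod ((R (l ^ j)).coeff i)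
  obtain ⟨j, j', hne, hF⟩ := Finite.exists_ne_map_eq_of_infinite F
  have key : ∀ a b : ℕ, F a = F b → ‖ξ ^ l ^ a - ξ ^ l ^ b‖ < 1 := by
    intro a b hab
    rw [hsum (l ^ a), hsum (l ^ b), ← sum_sub_distrib]
    refine sum_lt _ _ one_pos fun i hi => ?_
    rw [← sub_mul, ← map_sub, norm_mul, norm_pow, hφn]
    have h1 := congrFun hab ⟨i, mem_range.1 hi⟩
    simp only [F] at h1
    have h2 : PadicInt.toZMod ((R (l ^ a)).coeff i - (R (l ^ b)).coeff i) = 0 := by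
      rw [map_sub, h1, sub_self]
    have h3 : (R (l ^ a)).coeff i - (R (l ^ b)).coeff i ∈ RingHom.ker (PadicInt.toZMod : ℤ_[l] →+* ZMod l) := h2
    rw [PadicInt.ker_toZMod, IsLocalRing.mem_maximalIdeal, PadicInt.mem_nonunits] at h3
    calc _ ≤ ‖(R (l ^ a)).coeff i - (R (l ^ b)).coeff i‖ * 1 :=
          mul_le_mul_of_nonneg_left (pow_le_one₀ (norm_nonneg _) hξ) (norm_nonneg _)
      _ < 1 := by rw [mul_one]; exact h3
  have fin : ∀ a b : ℕ, a < b → F a = F b → ∃ N : ℕ, 1 ≤ N ∧ ‖ξ ^ l ^ N - ξ‖ < 1 := by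
    intro a b hlt hab
    refine ⟨b - a, by omega, ?_⟩
    refine pow_close (n := a) ?_ hξ ?_
    · rw [norm_pow]
      exact pow_le_one₀ (norm_nonneg _) hξ
    · rw [← pow_mul, ← pow_add, Nat.sub_add_cancel hlt.le, norm_sub_rev]
      exact key a b hab
  rcases lt_or_gt_of_ne hne with h | h
  · exact fin j j' h hF
  · exact fin j' j h hF.symm

/-- a representative -/
def IsT (t : Om l) : Prop := ‖t‖ ≤ 1 ∧ ∃ N : ℕ, 1 ≤ N ∧ t ^ l ^ N = t

theorem exists_isT {ξ : Om l} (hξ : ‖ξ‖ ≤ 1) : ∃ t : Om l, IsT t ∧ ‖t - ξ‖ < 1 := by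
  obtain ⟨N, hN, h⟩ := exists_period hξ
  have hl := (Fact.out : l.Prime)
  have h2 : 1 < l ^ N := Nat.one_lt_pow (by omega) hl.one_lt
  set Q : (Om l)[X] := X ^ (l ^ N) - X with hQ
  have hmon : Q.Monic := by
    rw [hQ]
    apply monic_X_pow_sub
    rw [degree_X]
    exact_mod_cast h2
  have hsplit : Q.Splits := IsAlgClosed.splits Q
  have hprod : Q.eval ξ = (Q.roots.map fun a => ξ - a).prod := by
    conv_lhs => rw [hsplit.eq_prod_roots, hmon.leadingCoeff, C_1, one_mul, eval_multiset_prod]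
    rw [Multiset.map_map]
    congr 1
    refine Multiset.map_congr rfl fun a _ => ?_
    simp
  have hev : Q.eval ξ = ξ ^ l ^ N - ξ := by
    rw [hQ]
    simp
  have hroot : ∀ a ∈ Q.roots, a ^ l ^ N = a := by
    intro a ha
    have h3 := (mem_roots hmon.ne_zero).1 ha
    rw [IsRoot, hQ] at h3
    simpa [sub_eq_zero] using h3
  by_contra hcon
  push Not at hcon
  have hge : ∀ a ∈ Q.roots, 1 ≤ ‖ξ - a‖ := by
    intro a ha
    have h3 := hroot a ha
    have ha1 : ‖a‖ ≤ 1 := by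
      by_contra hlt
      push Not at hlt
      have h4 := congrArg (fun z : Om l => ‖z‖) h3
      simp only [norm_pow] at h4
      have h5 : ‖a‖ ^ 1 < ‖a‖ ^ l ^ N := pow_lt_pow_right₀ hlt h2
      rw [h4, pow_one] at h5
      exact lt_irrefl _ h5
    rw [norm_sub_rev]
    exact hcon a ⟨ha1, N, hN, h3⟩
  have h6 : 1 ≤ ‖(Q.roots.map fun a => ξ - a).prod‖ := by
    have h7 : ∀ S : Multiset (Om l), (∀ a ∈ S, 1 ≤ ‖ξ - a‖) → 1 ≤ ‖(S.map fun a => ξ - a).prod‖ := by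
      intro S
      induction S using Multiset.induction_on with
      | empty => simp
      | cons a S ih =>
        intro hS
        rw [Multiset.map_cons, Multiset.prod_cons, norm_mul]
        exact one_le_mul_of_one_le_of_one_le (hS a (Multiset.mem_cons_self a S))
          (ih fun b hb => hS b (Multiset.mem_cons_of_mem hb))
    exact h7 _ hge
  rw [← hprod, hev] at h6
  linarith

theorem isT_iter {t : Om l} {N : ℕ} (h : t ^ l ^ N = t) (k : ℕ) : t ^ l ^ (N * k) = t := by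
  induction k with
  | zero => simp
  | succ k ih => rw [Nat.mul_succ, pow_add, pow_mul, ih, h]

theorem isT_unique {t t' : Om l} (h : IsT t) (h' : IsT t') (hc : ‖t - t'‖ < 1) : t = t' := by
  obtain ⟨h1, N, hN, ht⟩ := h
  obtain ⟨h1', N', hN', ht'⟩ := h'
  have hl := (Fact.out : l.Prime)
  have e1 := isT_iter ht N'
  have e2 := isT_iter ht' N
  rw [mul_comm] at e2
  set M : ℕ := N * N' with hM
  have hM1 : M ≠ 0 := by
    rw [hM]
    exact (Nat.mul_pos (by omega) (by omega)).ne'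
  by_contra hne
  set d : Om l := t - t' with hd
  have hd0 : 0 < ‖d‖ := norm_pos_iff.2 (sub_ne_zero.2 hne)
  obtain ⟨r, hr, he⟩ := binom hc.le h1' M
  rw [hd, sub_add_cancel, e1, e2, ← hd] at he
  have he' : d = d ^ l ^ M + l * d * t' * r := by
    have : t - t' = d ^ l ^ M + l * d * t' * r := by
      rw [he]
      ring
    exact this
  have h2 : 1 < l ^ M := Nat.one_lt_pow hM1 hl.one_lt
  have a1 : ‖d ^ l ^ M‖ < ‖d‖ := by
    rw [norm_pow]
    calc ‖d‖ ^ l ^ M < ‖d‖ ^ 1 := pow_lt_pow_right_of_lt_one₀ hd0 hc h2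
      _ = ‖d‖ := pow_one _
  have a2 : ‖(l : Om l) * d * t' * r‖ < ‖d‖ := by
    rw [norm_mul, norm_mul, norm_mul]
    have b1 : ‖t'‖ * ‖r‖ ≤ 1 := mul_le_one₀ h1' (norm_nonneg _) hr
    calc ‖(l : Om l)‖ * ‖d‖ * ‖t'‖ * ‖r‖ = ‖(l : Om l)‖ * ‖d‖ * (‖t'‖ * ‖r‖) := by ring
      _ ≤ ‖(l : Om l)‖ * ‖d‖ * 1 := mul_le_mul_of_nonneg_left b1 (by positivity)
      _ = ‖(l : Om l)‖ * ‖d‖ := mul_one _
      _ < 1 * ‖d‖ := mul_lt_mul_of_pos_right norm_l_lt hd0
      _ = ‖d‖ := one_mul _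
  have a3 : ‖d‖ < ‖d‖ := by
    conv_lhs => rw [he']
    exact (IsUltrametricDist.norm_add_le_max _ _).trans_lt (max_lt a1 a2)
  exact lt_irrefl _ a3

/-- **ZC-TEI** -/
theorem tei : S_TEI := by
  intro l _
  have hex : ∀ ξ : Om l, ∃ t : Om l, ‖ξ‖ ≤ 1 → IsT t ∧ ‖t - ξ‖ < 1 := by
    intro ξ
    by_cases h : ‖ξ‖ ≤ 1
    · obtain ⟨t, ht⟩ := exists_isT h
      exact ⟨t, fun _ => ht⟩
    · exact ⟨0, fun h' => absurd h' h⟩
  choose tei htei using hex
  refine ⟨tei, fun ξ hξ => ?_⟩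
  obtain ⟨hT, hc⟩ := htei ξ hξ
  refine ⟨hc, fun g => ?_, fun ξ' hξ' => ?_⟩
  · have hgξ : ‖g ξ‖ ≤ 1 := by rw [norm_aut]; exact hξ
    obtain ⟨hT', hc'⟩ := htei (g ξ) hgξ
    refine isT_unique hT' ⟨by rw [norm_aut]; exact hT.1, ?_⟩ ?_
    · obtain ⟨N, hN, h⟩ := hT.2
      exact ⟨N, hN, by rw [← map_pow, h]⟩
    · have e : tei (g ξ) - g (tei ξ) = (tei (g ξ) - g ξ) - g (tei ξ - ξ) := by
        rw [map_sub]
        ring
      rw [e]
      refine (sub_le_max _ _).trans_lt (max_lt hc' ?_)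
      rw [norm_aut]
      exact hc
  · obtain ⟨hT', hc'⟩ := htei ξ' hξ'
    have hlt : ‖tei ξ - tei ξ'‖ < 1 → tei ξ = tei ξ' := isT_unique hT hT'
    refine ⟨fun h => hlt ?_, fun h => ?_⟩
    · have e : tei ξ - tei ξ' = (tei ξ - ξ) + (ξ - ξ') - (tei ξ' - ξ') := by ring
      rw [e]
      refine (sub_le_max _ _).trans_lt (max_lt ?_ hc')
      exact (IsUltrametricDist.norm_add_le_max _ _).trans_lt (max_lt hc h)
    · have hle : ‖tei ξ - tei ξ'‖ ≤ 1 := (sub_le_max _ _).trans (max_le hT.1 hT'.1)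
      by_contra hne
      exact h (hlt (lt_of_le_of_ne hle hne))

end Pool.Agent.Q190.ZC
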